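import Pool.Agent.Helper90.VS.PhiA

/-!
# Lower bound for `Phi m a X 0` (item A7 of MP_539ca6_an)
-/

open MeasureTheory Set Filter Topology

namespace Pool.Agent.Helper99.VSA
open Pool.Agent.Helper90.VS

theorem Phi_00 (m : ℕ) (a : ℝ → ℝ) : Phi m a 0 0 = 0 := by
  unfold Phi PhiI th
  have h : ∀ τ, LL (a τ) 0 (0 - τ) = LL (a τ) 0 τ := fun τ => by rw [zero_sub, LL_neg]
  simp only [h]
  simp

theorem cosh_le_one_add_sq {s : ℝ} (hs : |s| ≤ 1) : Real.cosh s ≤ 1 + s ^ 2 := by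
  have h1 := Real.cosh_le_exp_half_sq s
  have h2 : s ^ 2 ≤ 1 := (sq_le_one_iff_abs_le_one s).2 hs
  have h3 : 0 ≤ s ^ 2 := sq_nonneg s
  have h4 := Real.abs_exp_sub_one_sub_id_le (x := s ^ 2 / 2) (by rw [abs_of_nonneg (by positivity)]; linarith)
  have h5 := (abs_le.1 h4).2
  nlinarith

/-- Lower bound for the difference of `LL` near the corner. -/
theorem LL_diff_corner {s a X : ℝ} (hs : s ≠ 0) (hs1 : |s| ≤ 1) (ha : a ∈ Icc 0 Real.pi)
    (hX0 : 0 < X) (hX1 : X ≤ 1) :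
    X ^ 2 / 2 * (Real.sin a / (s ^ 2 + X ^ 2 + a ^ 2)) ≤ LL a 0 s - LL a X s := by
  rw [LL_X_sub hs]
  have hs2 : 0 < s ^ 2 := by positivity
  have hD : 0 < s ^ 2 + X ^ 2 + a ^ 2 := by positivity
  have e : X ^ 2 / 2 * (Real.sin a / (s ^ 2 + X ^ 2 + a ^ 2)) =
      ∫ y in (0 : ℝ)..X, y * (Real.sin a / (s ^ 2 + X ^ 2 + a ^ 2)) := by
    rw [intervalIntegral.integral_mul_const, integral_id]
    ring
  rw [e]
  refine intervalIntegral.integral_mono_on hX0.le (Continuous.intervalIntegrable (by fun_prop) _ _)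
    ((continuous_Lam_diff hs a).intervalIntegrable _ _) fun y hy => ?_
  refine le_trans ?_ (Lam_diff_lower hs y a)
  have hpi := Real.pi_gt_three
  have hpi' := Real.pi_le_four
  have h1 : y / 2 ≤ Real.sin y := by
    have h2 := Real.mul_le_sin hy.1 (by linarith [hy.2])
    have h3 : 1 / 2 ≤ 2 / Real.pi := by
      rw [div_le_div_iff₀ (by norm_num) (by linarith)]
      linarith
    have h4 := mul_le_mul_of_nonneg_right h3 hy.1
    linarith
  have h2 := sin_nonneg_Icc ha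
  have h3 := den_pos hs (y + a)
  have h4 : Real.cosh s - Real.cos (y + a) ≤ s ^ 2 + X ^ 2 + a ^ 2 := by
    have h5 := cosh_le_one_add_sq hs1
    have h6 := Real.one_sub_sq_div_two_le_cos (x := y + a)
    have h7 : y ^ 2 ≤ X ^ 2 := pow_le_pow_left₀ hy.1 hy.2 2
    nlinarith [sq_nonneg (y - a)]
  calc y * (Real.sin a / (s ^ 2 + X ^ 2 + a ^ 2)) = 2 * (y / 2) * Real.sin a / (s ^ 2 + X ^ 2 + a ^ 2) := by
        ring
    _ ≤ 2 * Real.sin y * Real.sin a / (s ^ 2 + X ^ 2 + a ^ 2) := by gcongr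
    _ ≤ _ := by
        have h8 : 0 ≤ Real.sin y := by linarith [hy.1]
        exact div_le_div_of_nonneg_left (by positivity) h3 h4

/-- `LL` is nonincreasing in `X`. -/
theorem LL_diff_nonneg {s a X : ℝ} (hs : s ≠ 0) (ha : a ∈ Icc 0 Real.pi)
    (hX : X ∈ Icc 0 Real.pi) : 0 ≤ LL a 0 s - LL a X s := by
  rw [LL_X_sub hs]
  exact intervalIntegral.integral_nonneg hX.1 fun y hy =>
    Lam_diff_nonneg hs ⟨hy.1, hy.2.trans hX.2⟩ ha

/-- A7 -/
theorem Phi_X0_lower (m : ℕ) (hm : 1 ≤ m) (a : ℝ → ℝ) (ha : Prof a) : ∃ c > 0, ∀ X, 0 < X → X ≤ 1 →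
    c * X ^ 2 * ∫ τ in X..1, Real.sin (a τ) / (τ ^ 2 + X ^ 2 + (a τ) ^ 2) ≤ Phi m a X 0 := by
  have hpi := Real.pi_pos
  refine ⟨Real.exp (-20) / (8 * Real.pi), by positivity, fun X hX0 hX1 => ?_⟩
  have hXpi : X ≤ Real.pi := by linarith [Real.pi_gt_three]
  have h1 := Phi_X_sub m ha 0 X 0
  rw [Phi_00, sub_zero] at h1
  rw [h1]
  have hint : IntervalIntegrable (fun τ => wt m τ * (LL (a τ) 0 (0 - τ) - LL (a τ) X (0 - τ)))
      volume 0 10 := intble_wt_mul m ((intble_LL ha 0 0 0 10).sub (intble_LL ha X 0 0 10))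
  have hint2 : IntervalIntegrable (fun τ => wt m τ * (LL (a τ) 0 (0 - τ) - LL (a τ) X (0 - τ)))
      volume X 1 := intble_wt_mul m ((intble_LL ha 0 0 X 1).sub (intble_LL ha X 0 X 1))
  have hnn : ∀ τ ∈ Icc (0 : ℝ) 10, τ ≠ 0 →
      0 ≤ wt m τ * (LL (a τ) 0 (0 - τ) - LL (a τ) X (0 - τ)) := by
    intro τ _ hne
    exact mul_nonneg (wt_pos m τ).le (LL_diff_nonneg (by simpa using hne)
      ⟨ha.nonneg τ, ha.le_pi τ⟩ ⟨hX0.le, hXpi⟩)
  have hsub : ∫ τ in X..1, wt m τ * (LL (a τ) 0 (0 - τ) - LL (a τ) X (0 - τ)) ≤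
      ∫ τ in (0 : ℝ)..10, wt m τ * (LL (a τ) 0 (0 - τ) - LL (a τ) X (0 - τ)) := by
    refine intervalIntegral.integral_mono_interval hX0.le hX1 (by norm_num) ?_ hint
    filter_upwards [ae_ne_restrict 0 (Ioc 0 10), ae_restrict_mem measurableSet_Ioc] with τ h2 h3
    exact hnn τ ⟨h3.1.le, h3.2⟩ h2
  have hlow : ∫ τ in X..1, Real.exp (-20) * (X ^ 2 / 2) *
      (Real.sin (a τ) / (τ ^ 2 + X ^ 2 + (a τ) ^ 2)) ≤
      ∫ τ in X..1, wt m τ * (LL (a τ) 0 (0 - τ) - LL (a τ) X (0 - τ)) := by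
    refine intervalIntegral.integral_mono_on hX1 ?_ hint2 fun τ hτ => ?_
    · refine IntervalIntegrable.const_mul ?_ _
      refine intble_of_bdd ?_ (1 / X ^ 2) X 1 fun τ _ => ?_
      · have := ha.measurable
        fun_prop
      · have h5 : 0 < τ ^ 2 + X ^ 2 + a τ ^ 2 := by positivity
        rw [abs_div, abs_of_pos h5, div_le_div_iff₀ h5 (by positivity)]
        have h6 := Real.abs_sin_le_one (a τ)
        nlinarith [sq_nonneg τ, sq_nonneg (a τ), sq_nonneg X]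
    · have hτ0 : 0 < τ := hX0.trans_le hτ.1
      have hne : (0 : ℝ) - τ ≠ 0 := by simpa using hτ0.ne'
      have h5 := LL_diff_corner (s := 0 - τ) (a := a τ) hne
        (by rw [zero_sub, abs_neg, abs_of_pos hτ0]; exact hτ.2) ⟨ha.nonneg τ, ha.le_pi τ⟩ hX0 hX1
      rw [show (0 - τ) ^ 2 = τ ^ 2 by ring] at h5
      have h6 := wt_ge hm (show τ ≤ 10 by linarith [hτ.2])
      have h7 := sin_a_nonneg ha τ
      calc Real.exp (-20) * (X ^ 2 / 2) * (Real.sin (a τ) / (τ ^ 2 + X ^ 2 + (a τ) ^ 2))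
          = Real.exp (-20) * (X ^ 2 / 2 * (Real.sin (a τ) / (τ ^ 2 + X ^ 2 + (a τ) ^ 2))) := by
            ring
        _ ≤ wt m τ * (X ^ 2 / 2 * (Real.sin (a τ) / (τ ^ 2 + X ^ 2 + (a τ) ^ 2))) := by
            gcongr
        _ ≤ _ := mul_le_mul_of_nonneg_left h5 (wt_pos m τ).le
  rw [intervalIntegral.integral_const_mul] at hlow
  calc Real.exp (-20) / (8 * Real.pi) * X ^ 2 *
        ∫ τ in X..1, Real.sin (a τ) / (τ ^ 2 + X ^ 2 + (a τ) ^ 2)
      = 1 / (4 * Real.pi) * (Real.exp (-20) * (X ^ 2 / 2) *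
        ∫ τ in X..1, Real.sin (a τ) / (τ ^ 2 + X ^ 2 + (a τ) ^ 2)) := by
        field_simp
        ring
    _ ≤ _ := mul_le_mul_of_nonneg_left (hlow.trans hsub) (by positivity)

end Pool.Agent.Helper99.VSA
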