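import Pool.Agent.Helper90.VS.PhiB
import Pool.Agent.Helper99.VS.A7

/-!
# Upper bound for `Phi m a 0 t` (item A6 of MP_539ca6_an)
-/

open MeasureTheory Set Filter Topology

namespace Pool.Agent.Helper99.VSA
open Pool.Agent.Helper90.VS

theorem LL_lip {a : ℝ} (ha : a ∈ Icc 0 Real.pi) {v₁ v₂ : ℝ} (h1 : 0 < v₁) (h2 : 0 < v₂) (X : ℝ) :
    |LL a X v₂ - LL a X v₁| ≤ 2 * Real.pi * |v₂ - v₁| := by
  rw [LL_sub a X h1 h2, ← Real.norm_eq_abs]
  exact intervalIntegral.norm_integral_le_of_norm_le_const fun v _ => by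
    rw [Real.norm_eq_abs]
    exact GG_abs_le v ha.1 ha.2 X

/-- Slope of `Phi` at the corner. -/
theorem Phi_zero_div_tendsto (m : ℕ) (hm : 1 ≤ m) {a : ℝ → ℝ} (ha : Prof a) :
    Tendsto (fun t => Phi m a 0 t / t) (𝓝[>] 0) (𝓝 0) := by
  have hpi := Real.pi_pos
  have hm' : (0 : ℝ) < m := by exact_mod_cast hm
  -- the integral term
  have hI : Tendsto (fun t => ∫ τ in (0 : ℝ)..10,
      wt m τ * (LL (a τ) 0 (t - τ) - LL (a τ) 0 τ + t * GG (a τ) 0 τ) / t) (𝓝[>] 0) (𝓝 0) := by
    suffices h0 : Tendsto (fun t => ∫ τ in (0 : ℝ)..10,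
      wt m τ * (LL (a τ) 0 (t - τ) - LL (a τ) 0 τ + t * GG (a τ) 0 τ) / t) (𝓝[>] 0)
        (𝓝 (∫ _τ in (0 : ℝ)..10, (0 : ℝ))) by simpa using h0
    have hbi : IntervalIntegrable (fun _ : ℝ => 4 * Real.pi) volume 0 10 :=
      intervalIntegrable_const
    refine intervalIntegral.tendsto_integral_filter_of_dominated_convergence
      (fun _ => 4 * Real.pi) ?_ ?_ hbi ?_
    · refine Eventually.of_forall fun t => ?_
      rw [uIoc_of_le (by norm_num)]
      exact ((intble_PhiI ha m 0 t 0 10).div_const t).1.aestronglyMeasurable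
    · filter_upwards [self_mem_nhdsWithin] with t ht
      have ht0 : (0 : ℝ) < t := ht
      have hne : ∀ᵐ τ : ℝ, τ ≠ t := by simp [ae_iff, measure_singleton]
      filter_upwards [hne] with τ hτt hτ
      rw [uIoc_of_le (by norm_num)] at hτ
      have hτ0 : 0 < τ := hτ.1
      have hmem : a τ ∈ Icc 0 Real.pi := ⟨ha.nonneg τ, ha.le_pi τ⟩
      have h1 : |LL (a τ) 0 (t - τ) - LL (a τ) 0 τ| ≤ 2 * Real.pi * t := by
        rcases lt_or_gt_of_ne hτt with h | h
        · refine (LL_lip hmem hτ0 (sub_pos.2 h) 0).trans ?_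
          refine mul_le_mul_of_nonneg_left ?_ (by positivity)
          rw [abs_le]
          constructor <;> linarith
        · rw [show t - τ = -(τ - t) by ring, LL_neg]
          refine (LL_lip hmem hτ0 (sub_pos.2 h) 0).trans ?_
          refine mul_le_mul_of_nonneg_left ?_ (by positivity)
          rw [abs_le]
          constructor <;> linarith
      have h2 : |t * GG (a τ) 0 τ| ≤ 2 * Real.pi * t := by
        rw [abs_mul, abs_of_pos ht0, mul_comm]
        exact mul_le_mul_of_nonneg_right (GG_abs_le τ (ha.nonneg τ) (ha.le_pi τ) 0) ht0.le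
      rw [Real.norm_eq_abs, abs_div, abs_of_pos ht0, div_le_iff₀ ht0, abs_mul,
        abs_of_pos (wt_pos m τ)]
      have h3 := wt_le_one m hτ0.le
      have h4 := abs_add_le (LL (a τ) 0 (t - τ) - LL (a τ) 0 τ) (t * GG (a τ) 0 τ)
      calc wt m τ * |LL (a τ) 0 (t - τ) - LL (a τ) 0 τ + t * GG (a τ) 0 τ|
          ≤ 1 * |LL (a τ) 0 (t - τ) - LL (a τ) 0 τ + t * GG (a τ) 0 τ| :=
            mul_le_mul_of_nonneg_right h3 (abs_nonneg _)
        _ ≤ 4 * Real.pi * t := by linarith
    · refine Eventually.of_forall fun τ hτ => ?_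
      rw [uIoc_of_le (by norm_num)] at hτ
      have hτ0 : 0 < τ := hτ.1
      have hd : HasDerivAt (fun t => LL (a τ) 0 (τ - t)) (-GG (a τ) 0 τ) 0 := by
        have h1 : HasDerivAt (fun s => LL (a τ) 0 s) (GG (a τ) 0 (τ - 0)) (τ - 0) :=
          hasDerivAt_LL (by simpa using hτ0.ne') (a τ) 0
        have h2 : HasDerivAt (fun t : ℝ => τ - t) (-1) 0 := by
          simpa using (hasDerivAt_id (0 : ℝ)).const_sub τ
        have h3 := h1.comp (0 : ℝ) h2
        simpa [Function.comp_def] using h3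
      have hs := (hasDerivAt_iff_tendsto_slope.1 hd).mono_left
        (nhdsWithin_mono 0 (fun x (hx : (0 : ℝ) < x) => hx.ne'))
      have hs2 : Tendsto (fun t => wt m τ * (slope (fun t => LL (a τ) 0 (τ - t)) 0 t
          + GG (a τ) 0 τ)) (𝓝[>] 0) (𝓝 (wt m τ * (-GG (a τ) 0 τ + GG (a τ) 0 τ))) :=
        (hs.add_const _).const_mul _
      rw [neg_add_cancel, mul_zero] at hs2
      refine hs2.congr' ?_
      filter_upwards [self_mem_nhdsWithin] with t ht
      have ht0 : (0 : ℝ) < t := ht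
      rw [slope_def_field, show t - τ = -(τ - t) by ring, LL_neg]
      simp only [sub_zero]
      field_simp
  -- the linear term
  have hT : Tendsto (fun t => (t - th m t) / t) (𝓝[>] 0) (𝓝 0) := by
    have hb : Tendsto (fun t : ℝ => 2 * t / m) (𝓝[>] 0) (𝓝 0) := by
      have : ContinuousAt (fun t : ℝ => 2 * t / m) 0 := by fun_prop
      have h1 := this.tendsto.mono_left (nhdsWithin_le_nhds (s := Ioi 0))
      simpa using h1
    have hsmall : ∀ᶠ t : ℝ in 𝓝[>] 0, t < m / 2 :=
      nhdsWithin_le_nhds (gt_mem_nhds (by positivity))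
    refine squeeze_zero' ?_ ?_ hb
    · filter_upwards [self_mem_nhdsWithin] with t ht
      have ht0 : (0 : ℝ) < t := ht
      have h1 := Real.add_one_le_exp (-(2 * t / m))
      have h2 : th m t ≤ t := by
        unfold th
        calc (m : ℝ) / 2 * (1 - Real.exp (-(2 * t / m))) ≤ m / 2 * (2 * t / m) := by
              refine mul_le_mul_of_nonneg_left ?_ (by positivity)
              linarith
          _ = t := by field_simp
      have : 0 ≤ t - th m t := by linarith
      positivity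
    · filter_upwards [self_mem_nhdsWithin, hsmall] with t ht htm
      have ht0 : (0 : ℝ) < t := ht
      set y : ℝ := 2 * t / m with hy
      have hy0 : 0 ≤ y := by positivity
      have hy1 : y ≤ 1 := by
        rw [hy, div_le_one hm']
        linarith
      have hym : y * m = 2 * t := by rw [hy]; field_simp
      have h2 : Real.exp (-y) ≤ 1 - y + y ^ 2 := by
        have := Real.abs_exp_sub_one_sub_id_le (x := -y) (by rw [abs_neg, abs_of_nonneg hy0]; exact hy1)
        have h3 := (abs_le.1 this).2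
        linarith [(by ring : (-y) ^ 2 = y ^ 2)]
      have h3 : t - y * t ≤ th m t := by
        unfold th
        rw [← hy]
        have h4 : (m : ℝ) / 2 * (y - y ^ 2) ≤ m / 2 * (1 - Real.exp (-y)) :=
          mul_le_mul_of_nonneg_left (by linarith) (by positivity)
        have h5 : (m : ℝ) / 2 * (y - y ^ 2) = (y * m) / 2 * (1 - y) := by ring
        rw [h5, hym] at h4
        linarith
      rw [div_le_iff₀ ht0]
      linarith
  have hsum := (hI.const_mul (-(1 / (4 * Real.pi)))).add (hT.const_mul (sig m a))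
  rw [mul_zero, mul_zero, add_zero] at hsum
  refine hsum.congr fun t => ?_
  unfold Phi PhiI
  rw [intervalIntegral.integral_div]
  ring

/-- A6 -/
theorem Phi_zero_upper (κ : ℝ) (hκ : 0 < κ) : ∃ m₀ : ℕ, ∀ m ≥ m₀, ∀ a, Prof a → κ ≤ mass a →
    ∃ c > 0, ∃ δ > 0, ∀ t ∈ Icc 0 δ, Phi m a 0 t ≤ -(c * t ^ 2) := by
  have hpi := Real.pi_pos
  have hcosh : (0 : ℝ) < Real.cosh 20 + 1 := by have := Real.cosh_pos 20; linarith
  set c : ℝ := Real.exp (-20) * κ / (4 * Real.pi * (Real.cosh 20 + 1)) with hc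
  have hc0 : 0 < c := by rw [hc]; positivity
  obtain ⟨n, hn⟩ := exists_nat_gt (20 / c)
  refine ⟨n + 1, fun m hm a ha hmass => ⟨c / 2, by positivity, 10, by norm_num, fun t ht => ?_⟩⟩
  have hm1 : 1 ≤ m := by omega
  have hm' : (0:ℝ) < m := by exact_mod_cast hm1
  have hmn : (n:ℝ) ≤ m := by exact_mod_cast (by omega : n ≤ m)
  rcases ht.1.eq_or_lt with h0 | h0
  · rw [← h0, Phi_00]
    simp
  · have h4 : 10 / (m:ℝ) ≤ c / 2 := by
      rw [div_le_iff₀ hm']
      rw [div_lt_iff₀ hc0] at hn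
      nlinarith
    have h5 : c ≤ Real.exp (-20) * mass a / (4 * Real.pi * (Real.cosh 20 + 1)) := by
      rw [hc]; gcongr
    have hlim : Tendsto (fun t₁ => Phi m a 0 t₁ / t₁ + (t - t₁) * (-(c / 2))) (𝓝[>] 0)
        (𝓝 (0 + (t - 0) * (-(c / 2)))) := by
      refine (Phi_zero_div_tendsto m hm1 ha).add ?_
      have : ContinuousAt (fun t₁ : ℝ => (t - t₁) * (-(c / 2))) 0 := by fun_prop
      exact this.tendsto.mono_left nhdsWithin_le_nhds
    have hle : Phi m a 0 t / t ≤ 0 + (t - 0) * (-(c / 2)) := by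
      refine ge_of_tendsto hlim ?_
      have hlt : ∀ᶠ t₁ : ℝ in 𝓝[>] 0, t₁ < t := nhdsWithin_le_nhds (gt_mem_nhds h0)
      filter_upwards [self_mem_nhdsWithin, hlt] with t₁ ht1 ht2
      have h6 := Phi_div_le m hm1 ha (X := 0) ⟨le_rfl, hpi.le⟩ (show (0 : ℝ) < t₁ from ht1) ht2.le ht.2
      have h7 : (t - t₁) * (10 / m - Real.exp (-20) * mass a / (4 * Real.pi * (Real.cosh 20 + 1)))
          ≤ (t - t₁) * (-(c / 2)) := mul_le_mul_of_nonneg_left (by linarith) (by linarith)
      linarith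
    rw [div_le_iff₀ h0] at hle
    have : (0 + (t - 0) * -(c / 2)) * t = -(c / 2 * t ^ 2) := by ring
    linarith

end Pool.Agent.Helper99.VSA
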