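import Pool.Agent.Helper90.VS.Defs

/-!
# Negativity of `Phi` at the inner end of the strip (request R7 of MP_539ca6_an)
-/

open MeasureTheory Set Filter Topology

namespace Pool.Agent.Helper99.VS
open Pool.Agent.Helper90.VS

/-! ### Elementary facts -/

theorem cosh_sub_cos_pos {s : ℝ} (hs : s ≠ 0) (x : ℝ) : 0 < Real.cosh s - Real.cos x := by
  have h1 := Real.one_lt_cosh.2 hs
  have h2 := Real.cos_le_one x
  linarith

theorem Lam_ge {s : ℝ} (hs : s ≠ 0) (x : ℝ) : Real.log (Real.cosh s - 1) ≤ Lam s x := by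
  have h1 := Real.one_lt_cosh.2 hs
  have h2 := Real.cos_le_one x
  exact Real.log_le_log (by linarith) (by linarith)

theorem Lam_le {s : ℝ} (hs : s ≠ 0) (x : ℝ) : Lam s x ≤ Real.log (Real.cosh s + 1) := by
  have h1 := cosh_sub_cos_pos hs x
  have h2 := Real.neg_one_le_cos x
  exact Real.log_le_log h1 (by linarith)

theorem lam_ge {s : ℝ} (hs : 0 < s) (x : ℝ) : Real.sinh s / (Real.cosh s + 1) ≤ lam s x := by
  have h1 := cosh_sub_cos_pos hs.ne' x
  have h2 := Real.neg_one_le_cos x
  have h3 := Real.sinh_pos_iff.2 hs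
  exact div_le_div_of_nonneg_left h3.le h1 (by linarith)

theorem continuous_Lam {s : ℝ} (hs : s ≠ 0) : Continuous (Lam s) := by
  unfold Lam
  refine Continuous.log (by fun_prop) fun x => (cosh_sub_cos_pos hs x).ne'

theorem continuous_lam {s : ℝ} (hs : s ≠ 0) : Continuous (lam s) := by
  unfold lam
  exact continuous_const.div (by fun_prop) fun x => (cosh_sub_cos_pos hs x).ne'

theorem LL_ge {a s : ℝ} (X : ℝ) (ha : a ≤ Real.pi) (hs : s ≠ 0) :
    2 * (Real.pi - a) * Real.log (Real.cosh s - 1) ≤ LL a X s := by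
  have hc := continuous_Lam hs
  have h : ∫ _x in a..Real.pi, (2 * Real.log (Real.cosh s - 1)) ≤ LL a X s := by
    refine intervalIntegral.integral_mono_on ha (by simp)
      (Continuous.intervalIntegrable (by fun_prop) _ _) fun x _ => ?_
    have h1 := Lam_ge hs (X - x)
    have h2 := Lam_ge hs (X + x)
    linarith
  rw [intervalIntegral.integral_const, smul_eq_mul] at h
  linarith

theorem LL_le {a s : ℝ} (X : ℝ) (ha : a ≤ Real.pi) (hs : s ≠ 0) :
    LL a X s ≤ 2 * (Real.pi - a) * Real.log (Real.cosh s + 1) := by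
  have hc := continuous_Lam hs
  have h : LL a X s ≤ ∫ _x in a..Real.pi, (2 * Real.log (Real.cosh s + 1)) := by
    refine intervalIntegral.integral_mono_on ha
      (Continuous.intervalIntegrable (by fun_prop) _ _) (by simp) fun x _ => ?_
    have h1 := Lam_le hs (X - x)
    have h2 := Lam_le hs (X + x)
    linarith
  rw [intervalIntegral.integral_const, smul_eq_mul] at h
  linarith

theorem GG_ge {a s : ℝ} (X : ℝ) (ha : a ≤ Real.pi) (hs : 0 < s) :
    2 * (Real.pi - a) * (Real.sinh s / (Real.cosh s + 1)) ≤ GG a X s := by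
  have hc := continuous_lam hs.ne'
  have h : ∫ _x in a..Real.pi, (2 * (Real.sinh s / (Real.cosh s + 1))) ≤ GG a X s := by
    refine intervalIntegral.integral_mono_on ha (by simp)
      (Continuous.intervalIntegrable (by fun_prop) _ _) fun x _ => ?_
    have h1 := lam_ge hs (X - x)
    have h2 := lam_ge hs (X + x)
    linarith
  rw [intervalIntegral.integral_const, smul_eq_mul] at h
  linarith

/-- Lower bound for the logarithm of `cosh s - 1`. -/
theorem log_cosh_sub_one {s : ℝ} (hs : 0 < s) :
    s + 2 * Real.log s - 2 * Real.log (1 + s) - Real.log 2 ≤ Real.log (Real.cosh s - 1) := by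
  have h1 : Real.cosh s - 1 = Real.exp s * (1 - Real.exp (-s)) ^ 2 / 2 := by
    rw [Real.cosh_eq]
    have : Real.exp s * Real.exp (-s) = 1 := by rw [← Real.exp_add]; simp
    have h2 : Real.exp s * (1 - Real.exp (-s)) ^ 2 =
        Real.exp s - 2 * (Real.exp s * Real.exp (-s)) + (Real.exp s * Real.exp (-s)) * Real.exp (-s) := by
      ring
    rw [h2, this]
    ring
  have h3 : s / (1 + s) ≤ 1 - Real.exp (-s) := by
    have h4 : Real.exp (-s) ≤ 1 / (1 + s) := by
      rw [Real.exp_neg, ← one_div]
      exact one_div_le_one_div_of_le (by positivity) (by linarith [Real.add_one_le_exp s])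
    have h5 : s / (1 + s) = 1 - 1 / (1 + s) := by field_simp; ring
    rw [h5]
    linarith
  have h6 : 0 < s / (1 + s) := by positivity
  have h7 : 0 < 1 - Real.exp (-s) := lt_of_lt_of_le h6 h3
  rw [h1, Real.log_div (by positivity) (by norm_num), Real.log_mul (by positivity) (by positivity),
    Real.log_exp, Real.log_pow]
  have h8 := Real.log_le_log h6 h3
  rw [Real.log_div hs.ne' (by positivity)] at h8
  push_cast
  linarith

/-- The exact value of the logarithm of `cosh u + 1`. -/
theorem log_cosh_add_one (u : ℝ) :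
    Real.log (Real.cosh u + 1) = u + 2 * Real.log (1 + Real.exp (-u)) - Real.log 2 := by
  have h1 : Real.cosh u + 1 = Real.exp u * (1 + Real.exp (-u)) ^ 2 / 2 := by
    rw [Real.cosh_eq]
    have : Real.exp u * Real.exp (-u) = 1 := by rw [← Real.exp_add]; simp
    have h2 : Real.exp u * (1 + Real.exp (-u)) ^ 2 =
        Real.exp u + 2 * (Real.exp u * Real.exp (-u)) + (Real.exp u * Real.exp (-u)) * Real.exp (-u) := by
      ring
    rw [h2, this]
    ring
  rw [h1, Real.log_div (by positivity) (by norm_num), Real.log_mul (by positivity) (by positivity),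
    Real.log_exp, Real.log_pow]
  push_cast
  ring

theorem tanh_half (u : ℝ) : Real.sinh u / (Real.cosh u + 1) = 1 - 2 / (Real.exp u + 1) := by
  have h0 : 0 < Real.exp u := Real.exp_pos u
  have h1 : Real.exp (-u) = (Real.exp u)⁻¹ := Real.exp_neg u
  rw [Real.sinh_eq, Real.cosh_eq, h1]
  have h2 : Real.exp u + (Real.exp u)⁻¹ + 2 ≠ 0 := by positivity
  field_simp
  ring

theorem exp_five_half : (12 : ℝ) ≤ Real.exp (5 / 2) := by
  have h1 : Real.exp (5 / 2) ^ 2 = Real.exp 1 ^ 5 := by
    rw [← Real.exp_nat_mul, ← Real.exp_nat_mul]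
    norm_num
  have h2 := Real.exp_one_gt_d9
  have h3 : (2.7182818283 : ℝ) ^ 5 ≤ Real.exp 1 ^ 5 := pow_le_pow_left₀ (by norm_num) h2.le 5
  have h4 : (12 : ℝ) ^ 2 ≤ Real.exp (5 / 2) ^ 2 := by
    rw [h1]
    refine le_trans ?_ h3
    norm_num
  exact le_of_sq_le_sq h4 (Real.exp_pos _).le

theorem log_ten_ge : (11 / 5 : ℝ) ≤ Real.log 10 := by
  rw [Real.le_log_iff_exp_le (by norm_num)]
  have h1 : Real.exp (11 / 5) ^ 5 = Real.exp 1 ^ 11 := by
    rw [← Real.exp_nat_mul, ← Real.exp_nat_mul]
    norm_num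
  have h2 := Real.exp_one_lt_d9
  have h3 : Real.exp 1 ^ 11 ≤ (2.7182818286 : ℝ) ^ 11 :=
    pow_le_pow_left₀ (Real.exp_pos _).le h2.le 11
  have h4 : Real.exp (11 / 5) ^ 5 ≤ (10 : ℝ) ^ 5 := by
    rw [h1]
    refine h3.trans ?_
    norm_num
  exact le_of_pow_le_pow_left₀ (by norm_num) (by norm_num) h4

theorem log_eleven_le : Real.log 11 ≤ 5 / 2 := by
  rw [Real.log_le_iff_le_exp (by norm_num)]
  linarith [exp_five_half]

/-- The pointwise estimate behind the negativity. -/
theorem pointwise {u θ : ℝ} (hu : 0 < u) (hu10 : u < 10) (hθ : 49 / 5 ≤ θ) :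
    1 / 10 + (2 + 2 * Real.log ((10 - u) / 10)) ≤
      Real.log (Real.cosh (10 - u) - 1) - Real.log (Real.cosh u + 1)
        + θ * (Real.sinh u / (Real.cosh u + 1)) - (10 - θ) := by
  have hs : 0 < 10 - u := by linarith
  have h1 := log_cosh_sub_one hs
  have h2 := log_cosh_add_one u
  have hT := tanh_half u
  have h10 := log_ten_ge
  have he0 : 0 < Real.exp u := Real.exp_pos u
  have hT0 : 0 ≤ Real.sinh u / (Real.cosh u + 1) := by
    have h3 := Real.sinh_pos_iff.2 hu
    have h4 := Real.cosh_pos u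
    positivity
  have hθT : 49 / 5 * (Real.sinh u / (Real.cosh u + 1)) ≤ θ * (Real.sinh u / (Real.cosh u + 1)) :=
    mul_le_mul_of_nonneg_right hθ hT0
  rw [Real.log_div hs.ne' (by norm_num)]
  rw [show 1 + (10 - u) = 11 - u by ring] at h1
  rcases le_total u (5 / 2) with h | h
  · have h5 : Real.log (11 - u) ≤ 5 / 2 :=
      (Real.log_le_log (by linarith) (by linarith)).trans log_eleven_le
    have h6 : Real.log (1 + Real.exp (-u)) ≤ Real.log 2 := by
      refine Real.log_le_log (by positivity) ?_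
      have : Real.exp (-u) ≤ 1 := Real.exp_le_one_iff.2 (by linarith)
      linarith
    have h7 := Real.log_two_lt_d9
    linarith
  · have h5 : Real.log (11 - u) ≤ 10 - u := by
      have := Real.log_le_sub_one_of_pos (show 0 < 11 - u by linarith)
      linarith
    have h8 : 12 ≤ Real.exp u := exp_five_half.trans (Real.exp_le_exp.2 h)
    have h6 : Real.log (1 + Real.exp (-u)) ≤ 1 / 12 := by
      have h9 := Real.log_le_sub_one_of_pos (show 0 < 1 + Real.exp (-u) by positivity)
      have h10 : Real.exp (-u) ≤ 1 / 12 := by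
        rw [Real.exp_neg, ← one_div]
        exact one_div_le_one_div_of_le (by norm_num) h8
      linarith
    have h11 : 11 / 13 ≤ Real.sinh u / (Real.cosh u + 1) := by
      rw [hT]
      have : 2 / (Real.exp u + 1) ≤ 2 / 13 :=
        div_le_div_of_nonneg_left (by norm_num) (by norm_num) (by linarith)
      linarith
    linarith

/-- `10 - θ(10) ≤ 1/10`. -/
theorem th_ten {m : ℕ} (hm : 1000 ≤ m) : 49 / 5 ≤ th m 10 ∧ th m 10 ≤ 10 := by
  have hm' : (1000 : ℝ) ≤ m := by exact_mod_cast hm
  have hm0 : (0 : ℝ) < m := by linarith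
  set y : ℝ := 20 / m with hy
  have hy0 : 0 ≤ y := by positivity
  have hy1 : y ≤ 1 / 50 := by
    rw [hy, div_le_div_iff₀ hm0 (by norm_num)]
    linarith
  have hym : y * m = 20 := by rw [hy]; field_simp
  have e : th m 10 = m / 2 * (1 - Real.exp (-y)) := by
    unfold th
    rw [hy]
    norm_num
  have h1 : 1 - y ≤ Real.exp (-y) := by
    have := Real.add_one_le_exp (-y)
    linarith
  have h2 : Real.exp (-y) ≤ 1 - y + y ^ 2 := by
    have := Real.abs_exp_sub_one_sub_id_le (x := -y) (by rw [abs_neg, abs_of_nonneg hy0]; linarith)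
    have h3 := (abs_le.1 this).2
    linarith [sq_nonneg y, (by ring : (-y) ^ 2 = y ^ 2)]
  constructor
  · rw [e]
    have h4 : m / 2 * (y - y ^ 2) ≤ m / 2 * (1 - Real.exp (-y)) :=
      mul_le_mul_of_nonneg_left (by linarith) (by positivity)
    have h5 : m / 2 * (y - y ^ 2) = 10 - 10 * y := by
      have : m / 2 * (y - y ^ 2) = (y * m) / 2 - (y * m) / 2 * y := by ring
      rw [this, hym]
      ring
    rw [h5] at h4
    linarith
  · rw [e]
    have h4 : m / 2 * (1 - Real.exp (-y)) ≤ m / 2 * y :=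
      mul_le_mul_of_nonneg_left (by linarith) (by positivity)
    have h5 : m / 2 * y = 10 := by
      have : m / 2 * y = (y * m) / 2 := by ring
      rw [this, hym]
      norm_num
    linarith

/-! ### Measurability and integrability -/

/-- Measurability of integrals with a variable lower end point. -/
theorem measurable_var {f : ℝ × ℝ → ℝ} (hf : Measurable f) {a : ℝ → ℝ} (ha : Measurable a)
    (hpi : ∀ t, a t ≤ Real.pi) : Measurable fun t => ∫ x in (a t)..Real.pi, f (t, x) := by
  have hset : MeasurableSet {p : ℝ × ℝ | a p.1 < p.2 ∧ p.2 ≤ Real.pi} :=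
    (measurableSet_lt (ha.comp measurable_fst) measurable_snd).inter
      (measurableSet_le measurable_snd measurable_const)
  have h1 : StronglyMeasurable ({p : ℝ × ℝ | a p.1 < p.2 ∧ p.2 ≤ Real.pi}.indicator f) :=
    (hf.indicator hset).stronglyMeasurable
  have h2 := (h1.integral_prod_right' (ν := (volume : Measure ℝ))).measurable
  convert h2 using 2 with t
  rw [intervalIntegral.integral_of_le (hpi t), ← integral_indicator measurableSet_Ioc]
  rfl

theorem measurable_Lam : Measurable fun p : ℝ × ℝ => Lam p.1 p.2 := by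
  unfold Lam
  fun_prop

theorem measurable_lam : Measurable fun p : ℝ × ℝ => lam p.1 p.2 := by
  unfold lam
  fun_prop

theorem measurable_LL {a : ℝ → ℝ} (ha : Measurable a) (hpi : ∀ t, a t ≤ Real.pi) {X : ℝ}
    {s : ℝ → ℝ} (hs : Measurable s) : Measurable fun t => LL (a t) X (s t) := by
  unfold LL
  refine measurable_var (f := fun p : ℝ × ℝ => Lam (s p.1) (X - p.2) + Lam (s p.1) (X + p.2)) ?_
    ha hpi
  have h1 : Measurable fun p : ℝ × ℝ => (s p.1, X - p.2) := by fun_prop
  have h2 : Measurable fun p : ℝ × ℝ => (s p.1, X + p.2) := by fun_prop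
  exact (measurable_Lam.comp h1).add (measurable_Lam.comp h2)

theorem measurable_GG {a : ℝ → ℝ} (ha : Measurable a) (hpi : ∀ t, a t ≤ Real.pi) {X : ℝ}
    {s : ℝ → ℝ} (hs : Measurable s) : Measurable fun t => GG (a t) X (s t) := by
  unfold GG
  refine measurable_var (f := fun p : ℝ × ℝ => lam (s p.1) (X - p.2) + lam (s p.1) (X + p.2)) ?_
    ha hpi
  have h1 : Measurable fun p : ℝ × ℝ => (s p.1, X - p.2) := by fun_prop
  have h2 : Measurable fun p : ℝ × ℝ => (s p.1, X + p.2) := by fun_prop
  exact (measurable_lam.comp h1).add (measurable_lam.comp h2)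

theorem abs_LL_le {a s X : ℝ} (ha0 : 0 ≤ a) (ha : a ≤ Real.pi) (hs : s ≠ 0) :
    |LL a X s| ≤ 2 * Real.pi * (2 * |Real.log s| + 3 * |s| + 4) := by
  have h1 := LL_ge X ha hs
  have h2 := LL_le X ha hs
  have hs' : 0 < |s| := abs_pos.2 hs
  have h3 := log_cosh_sub_one hs'
  have h4 := log_cosh_add_one |s|
  rw [Real.cosh_abs] at h3 h4
  rw [Real.log_abs] at h3
  have h5 : Real.log (1 + |s|) ≤ |s| := by
    have := Real.log_le_sub_one_of_pos (show 0 < 1 + |s| by positivity)
    linarith
  have h6 : Real.log (1 + Real.exp (-|s|)) ≤ 1 := by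
    have h7 := Real.log_le_sub_one_of_pos (show 0 < 1 + Real.exp (-|s|) by positivity)
    have h8 : Real.exp (-|s|) ≤ 1 := Real.exp_le_one_iff.2 (by linarith)
    linarith
  have h9 := Real.log_two_lt_d9
  have h10 := Real.log_two_gt_d9
  have h11 := neg_abs_le (Real.log s)
  have h11' := abs_nonneg (Real.log s)
  have hpi := Real.pi_pos
  set R := 2 * |Real.log s| + 3 * |s| + 4 with hR
  have hR0 : 0 ≤ R := by positivity
  have h12 : -R ≤ Real.log (Real.cosh s - 1) := by linarith
  have h13 : Real.log (Real.cosh s + 1) ≤ R := by linarith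
  have h14 : 0 ≤ 2 * (Real.pi - a) := by linarith
  have h15 : 2 * (Real.pi - a) ≤ 2 * Real.pi := by linarith
  rw [abs_le]
  constructor
  · calc -(2 * Real.pi * R) ≤ -(2 * (Real.pi - a) * R) := by
          have := mul_le_mul_of_nonneg_right h15 hR0
          linarith
      _ = 2 * (Real.pi - a) * (-R) := by ring
      _ ≤ 2 * (Real.pi - a) * Real.log (Real.cosh s - 1) := mul_le_mul_of_nonneg_left h12 h14
      _ ≤ _ := h1
  · calc LL a X s ≤ 2 * (Real.pi - a) * Real.log (Real.cosh s + 1) := h2
      _ ≤ 2 * (Real.pi - a) * R := mul_le_mul_of_nonneg_left h13 h14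
      _ ≤ _ := mul_le_mul_of_nonneg_right h15 hR0

theorem wt_pos (m : ℕ) (t : ℝ) : 0 < wt m t := Real.exp_pos _

theorem wt_le_one (m : ℕ) {t : ℝ} (ht : 0 ≤ t) : wt m t ≤ 1 := by
  unfold wt
  rw [Real.exp_le_one_iff]
  have : 0 ≤ 2 * t / m := by positivity
  linarith

theorem continuous_wt (m : ℕ) : Continuous (wt m) := by
  unfold wt
  fun_prop

theorem intervalIntegrable_LL {a : ℝ → ℝ} (ha : Prof a) (m : ℕ) (X t : ℝ) :
    IntervalIntegrable (fun τ => wt m τ * LL (a τ) X (t - τ)) volume 0 10 := by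
  have hlog : IntervalIntegrable (fun τ => Real.log (t - τ)) volume 0 10 := by
    have := (intervalIntegral.intervalIntegrable_log' (a := t) (b := t - 10)).comp_sub_left t
    simpa using this
  have hdom : IntervalIntegrable (fun τ => 2 * Real.pi * (2 * |Real.log (t - τ)| + 3 * |t - τ| + 4))
      volume 0 10 := by
    refine IntervalIntegrable.const_mul ?_ _
    refine ((hlog.abs.const_mul 2).add (Continuous.intervalIntegrable (by fun_prop) _ _)).add
      (by simp)
  have hmeas : Measurable fun τ => wt m τ * LL (a τ) X (t - τ) :=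
    (continuous_wt m).measurable.mul
      (measurable_LL ha.mono.measurable ha.le_pi (measurable_const.sub measurable_id))
  rw [intervalIntegrable_iff, uIoc_of_le (by norm_num : (0 : ℝ) ≤ 10)] at hdom ⊢
  refine Integrable.mono' hdom hmeas.aestronglyMeasurable ?_
  have hne : ∀ᵐ τ ∂(volume.restrict (Ioc (0 : ℝ) 10)), τ ≠ t :=
    ae_restrict_of_ae (by simpa using (measure_eq_zero_iff_ae_notMem.1 (measure_singleton t : volume {t} = 0)))
  filter_upwards [hne, ae_restrict_mem measurableSet_Ioc] with τ h1 h2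
  rw [norm_mul, Real.norm_of_nonneg (wt_pos m τ).le, Real.norm_eq_abs]
  have h3 := abs_LL_le (X := X) (ha.nonneg τ) (ha.le_pi τ) (sub_ne_zero.2 (Ne.symm h1))
  calc wt m τ * |LL (a τ) X (t - τ)| ≤ 1 * |LL (a τ) X (t - τ)| :=
        mul_le_mul_of_nonneg_right (wt_le_one m h2.1.le) (abs_nonneg _)
    _ ≤ _ := by rw [one_mul]; exact h3

theorem LL_zero_even (a s : ℝ) : LL a 0 (0 - s) = LL a 0 s := by
  unfold LL Lam
  simp [Real.cosh_neg]

theorem intervalIntegrable_LL0 {a : ℝ → ℝ} (ha : Prof a) (m : ℕ) :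
    IntervalIntegrable (fun τ => wt m τ * LL (a τ) 0 τ) volume 0 10 := by
  have := intervalIntegrable_LL ha m 0 0
  simp_rw [LL_zero_even] at this
  exact this

theorem one_add_half_sq_le_cosh {s : ℝ} (hs : 0 ≤ s) : 1 + s ^ 2 / 2 ≤ Real.cosh s := by
  have h1 : Real.cosh s = Real.cosh (s / 2) ^ 2 + Real.sinh (s / 2) ^ 2 := by
    rw [← Real.cosh_two_mul]
    ring_nf
  have h2 := Real.cosh_sq (s / 2)
  have h3 : s / 2 ≤ Real.sinh (s / 2) := Real.self_le_sinh_iff.2 (by linarith)
  nlinarith

/-- A crude bound for `GG` at `X = 0`. -/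
theorem GG_zero_bound {a s : ℝ} (ha0 : 0 ≤ a) (ha : a ≤ Real.pi) (hs : 0 < s) (hs10 : s ≤ 10) :
    0 ≤ GG a 0 s ∧ GG a 0 s ≤ Real.pi ^ 2 * Real.cosh 10 := by
  have hc := continuous_lam hs.ne'
  have hpi := Real.pi_pos
  have hlam0 : ∀ x, 0 ≤ lam s x := fun x =>
    div_nonneg (Real.sinh_pos_iff.2 hs).le (cosh_sub_cos_pos hs.ne' x).le
  have hii : ∀ u v : ℝ, IntervalIntegrable (fun x => lam s (0 - x) + lam s (0 + x)) volume u v :=
    fun u v => Continuous.intervalIntegrable (by fun_prop) _ _
  constructor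
  · unfold GG
    exact intervalIntegral.integral_nonneg ha fun x _ => add_nonneg (hlam0 _) (hlam0 _)
  · -- compare with the arctangent
    have hsinh : Real.sinh s ≤ s * Real.cosh 10 := by
      have hmono : ∀ x ∈ Icc (0 : ℝ) s, Real.cosh x ≤ Real.cosh 10 := fun x hx => by
        rw [Real.cosh_le_cosh, abs_of_nonneg hx.1, abs_of_nonneg (by norm_num)]
        linarith [hx.2]
      have h1 : ∫ x in (0 : ℝ)..s, Real.cosh x ≤ ∫ _x in (0 : ℝ)..s, Real.cosh 10 :=
        intervalIntegral.integral_mono_on hs.le (Real.continuous_cosh.intervalIntegrable _ _)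
          (by simp) hmono
      rw [intervalIntegral.integral_const, smul_eq_mul, sub_zero] at h1
      have h2 : ∫ x in (0 : ℝ)..s, Real.cosh x = Real.sinh s - Real.sinh 0 :=
        intervalIntegral.integral_eq_sub_of_hasDerivAt (fun x _ => Real.hasDerivAt_sinh x)
          (Real.continuous_cosh.intervalIntegrable _ _)
      rw [h2, Real.sinh_zero, sub_zero] at h1
      exact h1
    set A : ℝ → ℝ := fun x => 2 * Real.cosh 10 * Real.pi * Real.arctan (2 * x / (Real.pi * s)) with hA
    have hAder : ∀ x, HasDerivAt A (2 * Real.cosh 10 * Real.pi *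
        (1 / (1 + (2 * x / (Real.pi * s)) ^ 2) * (2 / (Real.pi * s)))) x := by
      intro x
      have h1 : HasDerivAt (fun x : ℝ => 2 * x / (Real.pi * s)) (2 / (Real.pi * s)) x := by
        have := ((hasDerivAt_id x).const_mul 2).div_const (Real.pi * s)
        simpa using this
      exact (h1.arctan).const_mul _
    have hcont : Continuous fun x : ℝ => 2 * Real.cosh 10 * Real.pi *
        (1 / (1 + (2 * x / (Real.pi * s)) ^ 2) * (2 / (Real.pi * s))) := by
      refine continuous_const.mul (Continuous.mul (continuous_const.div (by fun_prop) fun x => ?_)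
        continuous_const)
      positivity
    have hpoint : ∀ x ∈ Icc (0 : ℝ) Real.pi, lam s (0 - x) + lam s (0 + x) ≤
        2 * Real.cosh 10 * Real.pi *
        (1 / (1 + (2 * x / (Real.pi * s)) ^ 2) * (2 / (Real.pi * s))) := by
      intro x hx
      have h1 : lam s (0 - x) + lam s (0 + x) = 2 * (Real.sinh s / (Real.cosh s - Real.cos x)) := by
        unfold lam
        rw [zero_sub, zero_add, Real.cos_neg]
        ring
      have h2 : s ^ 2 / 2 + 2 / Real.pi ^ 2 * x ^ 2 ≤ Real.cosh s - Real.cos x := by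
        have h3 : 1 + s ^ 2 / 2 ≤ Real.cosh s := one_add_half_sq_le_cosh hs.le
        have h4 : Real.cos x ≤ 1 - 2 / Real.pi ^ 2 * x ^ 2 :=
          Real.cos_le_one_sub_mul_cos_sq (by rw [abs_of_nonneg hx.1]; exact hx.2)
        linarith
      have h5 : 0 < s ^ 2 / 2 + 2 / Real.pi ^ 2 * x ^ 2 := by positivity
      rw [h1]
      calc 2 * (Real.sinh s / (Real.cosh s - Real.cos x))
          ≤ 2 * ((s * Real.cosh 10) / (s ^ 2 / 2 + 2 / Real.pi ^ 2 * x ^ 2)) := by
            have := cosh_sub_cos_pos hs.ne' x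
            have h6 := (Real.sinh_pos_iff.2 hs).le
            gcongr
        _ = _ := by
            field_simp
    calc GG a 0 s ≤ ∫ x in (0 : ℝ)..Real.pi, (lam s (0 - x) + lam s (0 + x)) := by
          unfold GG
          refine intervalIntegral.integral_mono_interval ha0 ha le_rfl ?_ (hii _ _)
          exact Eventually.of_forall fun x => add_nonneg (hlam0 _) (hlam0 _)
      _ ≤ ∫ x in (0 : ℝ)..Real.pi, 2 * Real.cosh 10 * Real.pi *
            (1 / (1 + (2 * x / (Real.pi * s)) ^ 2) * (2 / (Real.pi * s))) :=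
          intervalIntegral.integral_mono_on hpi.le (hii _ _) (hcont.intervalIntegrable _ _) hpoint
      _ = A Real.pi - A 0 :=
          intervalIntegral.integral_eq_sub_of_hasDerivAt (fun x _ => hAder x)
            (hcont.intervalIntegrable _ _)
      _ ≤ 2 * Real.cosh 10 * Real.pi * (Real.pi / 2) := by
          have h0 : A 0 = 0 := by simp [hA]
          rw [h0, sub_zero]
          have := (Real.arctan_lt_pi_div_two (2 * Real.pi / (Real.pi * s))).le
          have h7 := (Real.cosh_pos 10).le
          exact mul_le_mul_of_nonneg_left this (by positivity)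
      _ = _ := by ring

theorem intervalIntegrable_GG0 {a : ℝ → ℝ} (ha : Prof a) (m : ℕ) :
    IntervalIntegrable (fun τ => wt m τ * GG (a τ) 0 τ) volume 0 10 := by
  have hdom : IntervalIntegrable (fun _ : ℝ => Real.pi ^ 2 * Real.cosh 10) volume 0 10 := by simp
  have hmeas : Measurable fun τ => wt m τ * GG (a τ) 0 τ :=
    (continuous_wt m).measurable.mul
      (measurable_GG ha.mono.measurable ha.le_pi measurable_id)
  rw [intervalIntegrable_iff, uIoc_of_le (by norm_num : (0 : ℝ) ≤ 10)] at hdom ⊢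
  refine Integrable.mono' hdom hmeas.aestronglyMeasurable ?_
  filter_upwards [ae_restrict_mem measurableSet_Ioc] with τ h2
  obtain ⟨h3, h4⟩ := GG_zero_bound (ha.nonneg τ) (ha.le_pi τ) h2.1 h2.2
  rw [norm_mul, Real.norm_of_nonneg (wt_pos m τ).le, Real.norm_of_nonneg h3]
  calc wt m τ * GG (a τ) 0 τ ≤ 1 * GG (a τ) 0 τ :=
        mul_le_mul_of_nonneg_right (wt_le_one m h2.1.le) h3
    _ ≤ _ := by rw [one_mul]; exact h4

/-! ### The weight -/

/-- `2 + 2 log ((10 - u)/10)` has integral zero over `[0,10]`. -/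
theorem intervalIntegrable_q : IntervalIntegrable
    (fun u : ℝ => 2 + 2 * Real.log ((10 - u) / 10)) volume 0 10 := by
  have h0 : IntervalIntegrable (fun v : ℝ => Real.log v) volume 1 0 :=
    intervalIntegral.intervalIntegrable_log'
  have h1 : IntervalIntegrable (fun u : ℝ => Real.log ((10 - u) / 10)) volume 0 10 := by
    have h2 : IntervalIntegrable (fun v : ℝ => Real.log (v / 10)) volume 10 0 := by
      have := h0.comp_mul_left (c := 1 / 10)
      simpa [div_eq_mul_inv, mul_comm] using this
    have := h2.comp_sub_left 10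
    simpa using this
  exact (by simp : IntervalIntegrable (fun _ : ℝ => (2 : ℝ)) volume 0 10).add (h1.const_mul 2)

theorem integral_q : ∫ u in (0 : ℝ)..10, (2 + 2 * Real.log ((10 - u) / 10)) = 0 := by
  have h1 : ∫ u in (0 : ℝ)..10, Real.log ((10 - u) / 10) = -10 := by
    have h2 := intervalIntegral.integral_comp_sub_left (a := 0) (b := 10)
      (fun v : ℝ => Real.log (v / 10)) 10
    rw [h2, sub_self, sub_zero]
    have h3 := intervalIntegral.integral_comp_div (a := 0) (b := 10)
      (fun v : ℝ => Real.log v) (c := 10) (by norm_num)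
    rw [h3, integral_log]
    norm_num
  have h0 : IntervalIntegrable (fun v : ℝ => Real.log v) volume 1 0 :=
    intervalIntegral.intervalIntegrable_log'
  have h4 : IntervalIntegrable (fun u : ℝ => Real.log ((10 - u) / 10)) volume 0 10 := by
    have h2 : IntervalIntegrable (fun v : ℝ => Real.log (v / 10)) volume 10 0 := by
      have := h0.comp_mul_left (c := 1 / 10)
      simpa [div_eq_mul_inv, mul_comm] using this
    have := h2.comp_sub_left 10
    simpa using this
  rw [intervalIntegral.integral_add (by simp) (h4.const_mul 2),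
    intervalIntegral.integral_const_mul, h1]
  norm_num

/-- Weighted integral of `2 + 2 log ((10 - u)/10)` against a nonincreasing function. -/
theorem integral_mul_q_nonneg {p : ℝ → ℝ} (hp : AntitoneOn p (Icc 0 10))
    (hpq : IntervalIntegrable (fun u => p u * (2 + 2 * Real.log ((10 - u) / 10))) volume 0 10) :
    0 ≤ ∫ u in (0 : ℝ)..10, p u * (2 + 2 * Real.log ((10 - u) / 10)) := by
  set us : ℝ := 10 * (1 - Real.exp (-1)) with hus
  have he0 : 0 < Real.exp (-1) := Real.exp_pos _
  have he1 : Real.exp (-1) < 1 := by rw [Real.exp_lt_one_iff]; norm_num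
  have hus0 : 0 ≤ us := by
    have : 0 ≤ 1 - Real.exp (-1) := by linarith
    positivity
  have hus10 : us ≤ 10 := by
    rw [hus]
    linarith
  have husmem : us ∈ Icc (0 : ℝ) 10 := ⟨hus0, hus10⟩
  have key : ∀ u ∈ Ioo (0 : ℝ) 10, p us * (2 + 2 * Real.log ((10 - u) / 10)) ≤
      p u * (2 + 2 * Real.log ((10 - u) / 10)) := by
    intro u hu
    have hpos : 0 < (10 - u) / 10 := by
      have := hu.2
      have : 0 < 10 - u := by linarith
      positivity
    have humem : u ∈ Icc (0 : ℝ) 10 := ⟨hu.1.le, hu.2.le⟩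
    rcases le_total u us with h | h
    · have h1 : Real.exp (-1) ≤ (10 - u) / 10 := by
        rw [hus] at h
        linarith
      have h2 : -1 ≤ Real.log ((10 - u) / 10) := by
        rw [Real.le_log_iff_exp_le hpos]
        exact h1
      exact mul_le_mul_of_nonneg_right (hp humem husmem h) (by linarith)
    · have h1 : (10 - u) / 10 ≤ Real.exp (-1) := by
        rw [hus] at h
        linarith
      have h2 : Real.log ((10 - u) / 10) ≤ -1 := by
        rw [Real.log_le_iff_le_exp hpos]
        exact h1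
      exact mul_le_mul_of_nonpos_right (hp husmem humem h) (by linarith)
  have h0 : ∫ u in (0 : ℝ)..10, p us * (2 + 2 * Real.log ((10 - u) / 10)) = 0 := by
    rw [intervalIntegral.integral_const_mul, integral_q, mul_zero]
  have h1 := intervalIntegral.integral_mono_on_of_le_Ioo (by norm_num)
    (intervalIntegrable_q.const_mul (p us)) hpq key
  rwa [h0] at h1

/-- The weight `w (π - a)` is antitone. -/
theorem antitone_weight {a : ℝ → ℝ} (ha : Prof a) (m : ℕ) :
    Antitone fun u => wt m u * (Real.pi - a u) := by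
  intro u v huv
  have h1 : wt m v ≤ wt m u := by
    unfold wt
    refine Real.exp_le_exp.2 ?_
    have : 2 * u / m ≤ 2 * v / m := by gcongr
    linarith
  have h2 := ha.mono huv
  have h3 := ha.le_pi v
  exact mul_le_mul h1 (by linarith) (by linarith) (wt_pos m u).le

theorem intervalIntegrable_weight {a : ℝ → ℝ} (ha : Prof a) (m : ℕ) :
    IntervalIntegrable (fun u => wt m u * (Real.pi - a u)) volume 0 10 :=
  (antitone_weight ha m).intervalIntegrable

theorem intervalIntegrable_weight_q {a : ℝ → ℝ} (ha : Prof a) (m : ℕ) :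
    IntervalIntegrable (fun u => wt m u * (Real.pi - a u) * (2 + 2 * Real.log ((10 - u) / 10)))
      volume 0 10 := by
  have h1 := (intervalIntegrable_q.norm).const_mul Real.pi
  have hq := intervalIntegrable_q
  have hm : Measurable fun u => wt m u * (Real.pi - a u) * (2 + 2 * Real.log ((10 - u) / 10)) := by
    have h2 := (continuous_wt m).measurable
    have h3 := ha.mono.measurable
    fun_prop
  rw [intervalIntegrable_iff, uIoc_of_le (by norm_num : (0 : ℝ) ≤ 10)] at h1 ⊢
  refine Integrable.mono' h1 hm.aestronglyMeasurable ?_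
  filter_upwards [ae_restrict_mem measurableSet_Ioc] with τ h2
  rw [norm_mul]
  refine mul_le_mul_of_nonneg_right ?_ (norm_nonneg _)
  have h3 := ha.nonneg τ
  have h4 := ha.le_pi τ
  have h5 := wt_le_one m h2.1.le
  have h6 := wt_pos m τ
  rw [Real.norm_of_nonneg (mul_nonneg h6.le (by linarith))]
  calc wt m τ * (Real.pi - a τ) ≤ 1 * Real.pi :=
        mul_le_mul h5 (by linarith) (by linarith) zero_le_one
    _ = Real.pi := one_mul _

theorem integral_weight_pos {a : ℝ → ℝ} (ha : Prof a) (hmass : 0 < mass a) (m : ℕ) :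
    0 < ∫ u in (0 : ℝ)..10, wt m u * (Real.pi - a u) := by
  have h1 : Real.exp (-(20 / m)) * mass a ≤ ∫ u in (0 : ℝ)..10, wt m u * (Real.pi - a u) := by
    unfold mass
    rw [← intervalIntegral.integral_const_mul]
    have hsin : Measurable fun u => Real.exp (-(20 / m)) * Real.sin (a u) := by
      have h3 := ha.mono.measurable
      fun_prop
    refine intervalIntegral.integral_mono_on (by norm_num) ?_ (intervalIntegrable_weight ha m) ?_
    · have hdom : IntervalIntegrable (fun _ : ℝ => Real.exp (-(20 / m))) volume 0 10 := by simp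
      rw [intervalIntegrable_iff, uIoc_of_le (by norm_num : (0 : ℝ) ≤ 10)] at hdom ⊢
      refine Integrable.mono' hdom hsin.aestronglyMeasurable (Eventually.of_forall fun u => ?_)
      rw [norm_mul, Real.norm_of_nonneg (Real.exp_pos _).le, Real.norm_eq_abs]
      exact mul_le_of_le_one_right (Real.exp_pos _).le (Real.abs_sin_le_one _)
    · intro u hu
      have h2 : Real.exp (-(20 / m)) ≤ wt m u := by
        unfold wt
        refine Real.exp_le_exp.2 (neg_le_neg ?_)
        have := hu.2
        gcongr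
        linarith
      have h3 : Real.sin (a u) ≤ Real.pi - a u := by
        rw [← Real.sin_pi_sub]
        exact Real.sin_le (by linarith [ha.le_pi u])
      have h4 : 0 ≤ Real.sin (a u) := Real.sin_nonneg_of_nonneg_of_le_pi (ha.nonneg u) (ha.le_pi u)
      exact mul_le_mul h2 h3 h4 (wt_pos m u).le
  have h2 : 0 < Real.exp (-(20 / m)) * mass a := mul_pos (Real.exp_pos _) hmass
  linarith

/-- **R7**: negativity of `Phi` at the inner end. -/
theorem Phi_ten_neg (m : ℕ) (hm : 1000 ≤ m) (a : ℝ → ℝ) (ha : Prof a) (hmass : 0 < mass a)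
    (X : ℝ) (_hX : X ∈ Icc 0 Real.pi) : Phi m a X 10 < 0 := by
  obtain ⟨hθ, hθ'⟩ := th_ten hm
  set θ := th m 10 with hθdef
  have hpi := Real.pi_pos
  have i1 := intervalIntegrable_LL ha m X 10
  have i2 := intervalIntegrable_LL0 ha m
  have i3 := intervalIntegrable_GG0 ha m
  have i4 := intervalIntegrable_weight ha m
  have i5 := intervalIntegrable_weight_q ha m
  set I1 := ∫ τ in (0 : ℝ)..10, wt m τ * LL (a τ) X (10 - τ) with hI1
  set I2 := ∫ τ in (0 : ℝ)..10, wt m τ * LL (a τ) 0 τ with hI2
  set I3 := ∫ τ in (0 : ℝ)..10, wt m τ * GG (a τ) 0 τ with hI3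
  set I4 := ∫ τ in (0 : ℝ)..10, wt m τ * (Real.pi - a τ) with hI4
  have ePhi : PhiI m a X 10 = -(1 / (4 * Real.pi)) * (I1 - I2 + 10 * I3) := by
    unfold PhiI
    congr 1
    rw [hI1, hI2, hI3, ← intervalIntegral.integral_sub i1 i2,
      ← intervalIntegral.integral_const_mul, ← intervalIntegral.integral_add (i1.sub i2)
        (i3.const_mul 10)]
    refine intervalIntegral.integral_congr fun τ _ => ?_
    ring
  have eSig : sig m a = (1 / (4 * Real.pi)) * (2 * I4 + I3) := by
    unfold sig
    congr 1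
    rw [hI4, hI3, ← intervalIntegral.integral_const_mul,
      ← intervalIntegral.integral_add (i4.const_mul 2) i3]
    refine intervalIntegral.integral_congr fun τ _ => ?_
    ring
  have hmain : 1 / 5 * I4 ≤ I1 - I2 + θ * I3 - 2 * (10 - θ) * I4 := by
    have hr : I1 - I2 + θ * I3 - 2 * (10 - θ) * I4 = ∫ τ in (0 : ℝ)..10,
        (wt m τ * LL (a τ) X (10 - τ) - wt m τ * LL (a τ) 0 τ + θ * (wt m τ * GG (a τ) 0 τ)
          - 2 * (10 - θ) * (wt m τ * (Real.pi - a τ))) := by
      rw [intervalIntegral.integral_sub ((i1.sub i2).add (i3.const_mul θ)) (i4.const_mul _),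
        intervalIntegral.integral_add (i1.sub i2) (i3.const_mul θ),
        intervalIntegral.integral_sub i1 i2, intervalIntegral.integral_const_mul,
        intervalIntegral.integral_const_mul]
    have hl : 1 / 5 * I4 ≤ ∫ τ in (0 : ℝ)..10, (1 / 5 * (wt m τ * (Real.pi - a τ)) +
        2 * (wt m τ * (Real.pi - a τ) * (2 + 2 * Real.log ((10 - τ) / 10)))) := by
      rw [intervalIntegral.integral_add (i4.const_mul _) (i5.const_mul _),
        intervalIntegral.integral_const_mul, intervalIntegral.integral_const_mul]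
      have := integral_mul_q_nonneg ((antitone_weight ha m).antitoneOn _) i5
      linarith
    rw [hr]
    refine hl.trans ?_
    refine intervalIntegral.integral_mono_on_of_le_Ioo (by norm_num)
      ((i4.const_mul _).add (i5.const_mul _))
      (((i1.sub i2).add (i3.const_mul θ)).sub (i4.const_mul _)) fun τ hτ => ?_
    have hs : (10 : ℝ) - τ ≠ 0 := by linarith [hτ.2]
    have h1 := LL_ge X (ha.le_pi τ) hs
    have h2 := LL_le 0 (ha.le_pi τ) hτ.1.ne'
    have h3 := GG_ge 0 (ha.le_pi τ) hτ.1
    have h4 := pointwise hτ.1 hτ.2 hθ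
    have h5 := ha.le_pi τ
    have h6 := wt_pos m τ
    have h7 : θ * (2 * (Real.pi - a τ) * (Real.sinh τ / (Real.cosh τ + 1))) ≤ θ * GG (a τ) 0 τ :=
      mul_le_mul_of_nonneg_left h3 (by linarith)
    have h8 := mul_le_mul_of_nonneg_left h4 (show 0 ≤ 2 * (Real.pi - a τ) by linarith)
    have h9 : 1 / 5 * (Real.pi - a τ) + 2 * ((Real.pi - a τ) * (2 + 2 * Real.log ((10 - τ) / 10)))
        ≤ LL (a τ) X (10 - τ) - LL (a τ) 0 τ + θ * GG (a τ) 0 τ
          - 2 * (10 - θ) * (Real.pi - a τ) := by
      linarith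
    have h10 := mul_le_mul_of_nonneg_left h9 h6.le
    linarith
  have hI4pos : 0 < I4 := integral_weight_pos ha hmass m
  have hfin : Phi m a X 10 = -(1 / (4 * Real.pi)) * (I1 - I2 + θ * I3 - 2 * (10 - θ) * I4) := by
    unfold Phi
    rw [ePhi, eSig, ← hθdef]
    ring
  rw [hfin]
  have h11 : 0 < I1 - I2 + θ * I3 - 2 * (10 - θ) * I4 := by linarith
  have h12 : 0 < 1 / (4 * Real.pi) * (I1 - I2 + θ * I3 - 2 * (10 - θ) * I4) := by positivity
  linarith

end Pool.Agent.Helper99.VS
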