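import Pool.Agent.Helper90.VS.Defs2
import Pool.Agent.Helper99.VS.R7

/-!
# Topology of the final domain (request R8b1 of MP_539ca6_an)
-/

open MeasureTheory Set Filter Topology

namespace Pool.Agent.Helper99.VS
open Pool.Agent.Helper90.VS

/-- What is used about the relative stream function. -/
structure FFData (m : ℕ) (a : ℝ → ℝ) : Prop where
  eq : ∀ x : ℂ, Real.exp (-10) ≤ ‖x‖ ^ m → ‖x‖ ≤ 1 →
    (m : ℝ) ^ 2 * FF m a x = Phi m a |Complex.arg (x ^ m)| (-(m * Real.log ‖x‖))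
  null : volume {x : ℂ | |Complex.arg (x ^ m)| = a (-(m * Real.log ‖x‖))} = 0
  cont : Continuous (FF m a)

theorem Phi_zero_zero (m : ℕ) (a : ℝ → ℝ) : Phi m a 0 0 = 0 := by
  unfold Phi PhiI th
  simp only [LL_zero_even]
  simp

variable {m : ℕ} {a : ℝ → ℝ}

theorem FixData.m_pos (h : FixData m a) : (0 : ℝ) < m := by
  have := h.hm
  have : 0 < m := by omega
  exact_mod_cast this

theorem FixData.a_zero (h : FixData m a) : a 0 = 0 := by
  refine le_antisymm ?_ (h.prof.nonneg 0)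
  by_contra hcon
  push Not at hcon
  have := h.neg 0 0 le_rfl ⟨le_rfl, by norm_num⟩ hcon
  rw [Phi_zero_zero] at this
  exact lt_irrefl _ this

theorem norm_pos_of {x : ℂ} (h : FixData m a) (hx : Real.exp (-10) ≤ ‖x‖ ^ m) : 0 < ‖x‖ := by
  rcases (norm_nonneg x).eq_or_lt with h0 | h0
  · rw [← h0, zero_pow (by have := h.hm; omega)] at hx
    exact absurd hx (not_le.2 (Real.exp_pos _))
  · exact h0

theorem tt_mem {x : ℂ} (h : FixData m a) (hx : Real.exp (-10) ≤ ‖x‖ ^ m) (hx1 : ‖x‖ ≤ 1) :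
    -(m * Real.log ‖x‖) ∈ Icc (0 : ℝ) 10 := by
  have h0 := norm_pos_of h hx
  have hm := FixData.m_pos h
  constructor
  · have := Real.log_nonpos h0.le hx1
    have := mul_nonpos_of_nonneg_of_nonpos hm.le this
    linarith
  · have h1 := Real.log_le_log (Real.exp_pos _) hx
    rw [Real.log_exp, Real.log_pow] at h1
    linarith

theorem tt_pos {x : ℂ} (h : FixData m a) (hx : Real.exp (-10) ≤ ‖x‖ ^ m) (hx1 : ‖x‖ < 1) :
    0 < -(m * Real.log ‖x‖) := by
  have h0 := norm_pos_of h hx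
  have hm := FixData.m_pos h
  have := Real.log_neg h0 hx1
  have := mul_neg_of_pos_of_neg hm this
  linarith

theorem X_mem (x : ℂ) : |Complex.arg x| ∈ Icc (0 : ℝ) Real.pi :=
  ⟨abs_nonneg _, Complex.abs_arg_le_pi x⟩

theorem FF_neg_iff {x : ℂ} (h : FixData m a) (d : FFData m a) (hx : Real.exp (-10) ≤ ‖x‖ ^ m)
    (hx1 : ‖x‖ ≤ 1) :
    FF m a x < 0 ↔ Phi m a |Complex.arg (x ^ m)| (-(m * Real.log ‖x‖)) < 0 := by
  have hm := FixData.m_pos h
  rw [← d.eq x hx hx1]
  have : (0 : ℝ) < (m : ℝ) ^ 2 := by positivity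
  rw [mul_neg_iff]
  constructor
  · intro h1
    exact Or.inl ⟨this, h1⟩
  · rintro (h1 | h1)
    · exact h1.2
    · exact absurd h1.1 (not_lt.2 this.le)

theorem FF_nonpos_iff {x : ℂ} (h : FixData m a) (d : FFData m a) (hx : Real.exp (-10) ≤ ‖x‖ ^ m)
    (hx1 : ‖x‖ ≤ 1) :
    FF m a x ≤ 0 ↔ Phi m a |Complex.arg (x ^ m)| (-(m * Real.log ‖x‖)) ≤ 0 := by
  have hm := FixData.m_pos h
  rw [← d.eq x hx hx1]
  have : (0 : ℝ) < (m : ℝ) ^ 2 := by positivity
  constructor
  · intro h1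
    exact mul_nonpos_of_nonneg_of_nonpos this.le h1
  · intro h1
    by_contra hcon
    push Not at hcon
    exact absurd h1 (not_le.2 (mul_pos this hcon))

theorem FF_pos_iff {x : ℂ} (h : FixData m a) (d : FFData m a) (hx : Real.exp (-10) ≤ ‖x‖ ^ m)
    (hx1 : ‖x‖ ≤ 1) :
    0 < FF m a x ↔ 0 < Phi m a |Complex.arg (x ^ m)| (-(m * Real.log ‖x‖)) := by
  have := FF_nonpos_iff h d hx hx1
  rw [← not_le, ← not_le, this]

/-- On the inner circle `FF` is negative. -/
theorem FF_inner {x : ℂ} (h : FixData m a) (d : FFData m a) (hx : ‖x‖ ^ m = Real.exp (-10)) :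
    FF m a x < 0 := by
  have hx1 : ‖x‖ ≤ 1 := by
    by_contra hcon
    push Not at hcon
    have h1 : 1 ≤ ‖x‖ ^ m := one_le_pow₀ hcon.le
    rw [hx] at h1
    have : Real.exp (-10) < 1 := by rw [Real.exp_lt_one_iff]; norm_num
    linarith
  rw [FF_neg_iff h d hx.ge hx1]
  have : -(m * Real.log ‖x‖) = 10 := by
    rw [← Real.log_pow, hx, Real.log_exp]
    norm_num
  rw [this]
  exact h.neg10 _ (X_mem _)

/-- On the unit circle `FF` is nonnegative. -/
theorem FF_outer {x : ℂ} (h : FixData m a) (d : FFData m a) (hx : ‖x‖ = 1) : 0 ≤ FF m a x := by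
  have hx0 : Real.exp (-10) ≤ ‖x‖ ^ m := by
    rw [hx, one_pow, Real.exp_le_one_iff]
    norm_num
  have ht : -(m * Real.log ‖x‖) = 0 := by rw [hx]; simp
  rcases (abs_nonneg (Complex.arg (x ^ m))).eq_or_lt with h0 | h0
  · have h1 := d.eq x hx0 hx.le
    rw [ht, ← h0, Phi_zero_zero] at h1
    have hm := FixData.m_pos h
    have : (m : ℝ) ^ 2 ≠ 0 := by positivity
    have h2 : FF m a x = 0 := by
      rcases mul_eq_zero.1 h1 with h3 | h3
      · exact absurd h3 this
      · exact h3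
    exact h2.ge
  · refine le_of_lt ((FF_pos_iff h d hx0 hx.le).2 ?_)
    rw [ht]
    refine h.pos _ 0 (X_mem _).2 ⟨le_rfl, by norm_num⟩ ?_
    rw [FixData.a_zero h]
    exact h0

/-- Monotonicity along rays. -/
theorem FF_ray {x : ℂ} {s : ℝ} (h : FixData m a) (d : FFData m a) (hs0 : 0 < s) (hs1 : s < 1)
    (hx1 : ‖x‖ < 1) (hsx : Real.exp (-10) ≤ ‖(s : ℂ) * x‖ ^ m) (hF : FF m a x ≤ 0) :
    FF m a ((s : ℂ) * x) < 0 := by
  have hn : ‖(s : ℂ) * x‖ = s * ‖x‖ := by
    rw [norm_mul, Complex.norm_real, Real.norm_of_nonneg hs0.le]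
  have hle : ‖(s : ℂ) * x‖ ≤ ‖x‖ := by
    rw [hn]
    exact mul_le_of_le_one_left (norm_nonneg _) hs1.le
  have hx : Real.exp (-10) ≤ ‖x‖ ^ m := hsx.trans (pow_le_pow_left₀ (norm_nonneg _) hle m)
  have hpos := norm_pos_of h hx
  have hm := FixData.m_pos h
  rw [FF_neg_iff h d hsx (hle.trans hx1.le)]
  rw [FF_nonpos_iff h d hx hx1.le] at hF
  have harg : Complex.arg (((s : ℂ) * x) ^ m) = Complex.arg (x ^ m) := by
    rw [mul_pow, ← Complex.ofReal_pow, Complex.arg_real_mul _ (pow_pos hs0 m)]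
  rw [harg]
  have hlog : Real.log ‖(s : ℂ) * x‖ = Real.log s + Real.log ‖x‖ := by
    rw [hn, Real.log_mul hs0.ne' hpos.ne']
  have hlt : -(m * Real.log ‖x‖) < -(m * Real.log ‖(s : ℂ) * x‖) := by
    rw [hlog]
    have := mul_neg_of_pos_of_neg hm (Real.log_neg hs0 hs1)
    linarith
  exact h.persist _ (X_mem _) _ _ (tt_pos h hx hx1) hlt (tt_mem h hsx (hle.trans hx1.le)).2 hF

theorem isOpen_DD (d : FFData m a) : IsOpen (DD m a) := by
  have h1 : DD m a = {x | ‖x‖ < 1} ∩ ({x | ‖x‖ ^ m < Real.exp (-10)} ∪ {x | FF m a x < 0}) := by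
    ext x
    simp only [DD, mem_inter_iff, mem_union, mem_ofPred_eq]
  rw [h1]
  refine (isOpen_lt continuous_norm continuous_const).inter ?_
  exact (isOpen_lt (by fun_prop) continuous_const).union (isOpen_lt d.cont continuous_const)

theorem DD_subset : DD m a ⊆ Metric.ball 0 1 := fun x hx => by
  rw [Metric.mem_ball, dist_zero_right]
  exact hx.1

theorem closure_DD_subset : closure (DD m a) ⊆ Metric.closedBall 0 1 :=
  closure_minimal (DD_subset.trans Metric.ball_subset_closedBall) Metric.isClosed_closedBall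

theorem FF_nonpos_of_closure {x : ℂ} (d : FFData m a) (hx : x ∈ closure (DD m a))
    (hxm : Real.exp (-10) < ‖x‖ ^ m) : FF m a x ≤ 0 := by
  by_contra hcon
  push Not at hcon
  have ho : IsOpen ({y : ℂ | Real.exp (-10) < ‖y‖ ^ m} ∩ {y | 0 < FF m a y}) :=
    (isOpen_lt continuous_const (by fun_prop)).inter (isOpen_lt continuous_const d.cont)
  obtain ⟨y, ⟨hy1, hy2⟩, hy3⟩ := mem_closure_iff.1 hx _ ho ⟨hxm, hcon⟩
  rcases hy3.2 with h1 | h1
  · exact absurd h1 (not_lt.2 (le_of_lt hy1))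
  · exact absurd h1 (not_lt.2 (le_of_lt hy2))

/-- On the frontier `FF` vanishes. -/
theorem FF_frontier {x : ℂ} (h : FixData m a) (d : FFData m a) (hx : x ∈ frontier (DD m a)) :
    FF m a x = 0 := by
  rw [(isOpen_DD d).frontier_eq] at hx
  obtain ⟨hxc, hxD⟩ := hx
  have hx1 : ‖x‖ ≤ 1 := by
    have := closure_DD_subset hxc
    rwa [Metric.mem_closedBall, dist_zero_right] at this
  rcases hx1.eq_or_lt with h1 | h1
  · refine le_antisymm (FF_nonpos_of_closure d hxc ?_) (FF_outer h d h1)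
    rw [h1, one_pow, Real.exp_lt_one_iff]
    norm_num
  · have h2 : ¬ (‖x‖ ^ m < Real.exp (-10) ∨ FF m a x < 0) := fun h3 => hxD ⟨h1, h3⟩
    push Not at h2
    have h3 : Real.exp (-10) < ‖x‖ ^ m := by
      refine lt_of_le_of_ne h2.1 fun h4 => ?_
      exact absurd (FF_inner h d h4.symm) (not_lt.2 h2.2)
    exact le_antisymm (FF_nonpos_of_closure d hxc h3) h2.2

/-- `DD` and `D0` differ by a null set. -/
theorem DD_ae_eq (h : FixData m a) (d : FFData m a) :
    DD m a =ᵐ[volume] D0 m a := by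
  have hn : ∀ᵐ x : ℂ, ¬ (|Complex.arg (x ^ m)| = a (-(m * Real.log ‖x‖))) := by
    rw [ae_iff]
    simpa using d.null
  filter_upwards [hn] with x hx
  refine propext ?_
  show x ∈ DD m a ↔ x ∈ D0 m a
  constructor
  · rintro ⟨h1, h2⟩
    refine ⟨by rwa [Metric.mem_ball, dist_zero_right], fun h3 => ?_⟩
    obtain ⟨h4, -, h5⟩ := h3
    rcases h2 with h2 | h2
    · exact absurd h2 (not_lt.2 h4.le)
    · rw [FF_neg_iff h d h4.le h1.le] at h2
      have := h.pos _ _ (X_mem (x ^ m)).2 (tt_mem h h4.le h1.le) h5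
      linarith
  · rintro ⟨h1, h2⟩
    rw [Metric.mem_ball, dist_zero_right] at h1
    refine ⟨h1, ?_⟩
    rcases lt_trichotomy (‖x‖ ^ m) (Real.exp (-10)) with h3 | h3 | h3
    · exact Or.inl h3
    · exact Or.inr (FF_inner h d h3)
    · refine Or.inr ?_
      rw [FF_neg_iff h d h3.le h1.le]
      refine h.neg _ _ (X_mem (x ^ m)).1 (tt_mem h h3.le h1.le) ?_
      refine lt_of_le_of_ne (not_lt.1 fun h4 => h2 ⟨h3, h1, h4⟩) hx

theorem pot_DD_of (h : FixData m a) (d : FFData m a) : pot (DD m a) = pot (D0 m a) := by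
  funext x
  unfold pot
  rw [setIntegral_congr_set (DD_ae_eq h d)]

theorem zero_mem_DD (h : FixData m a) : (0 : ℂ) ∈ DD m a := by
  refine ⟨by simp, Or.inl ?_⟩
  rw [norm_zero, zero_pow (by have := h.hm; omega)]
  exact Real.exp_pos _

theorem starConvex_DD (h : FixData m a) (d : FFData m a) : StarConvex ℝ 0 (DD m a) := by
  intro y hy s b hs hb hsb
  rw [smul_zero, zero_add, Complex.real_smul]
  rcases hb.eq_or_lt with h0 | h0
  · rw [← h0]
    simpa using zero_mem_DD h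
  · rcases (show b ≤ 1 by linarith).eq_or_lt with h1 | h1
    · rw [h1]
      simpa using hy
    · have hn : ‖(b : ℂ) * y‖ = b * ‖y‖ := by
        rw [norm_mul, Complex.norm_real, Real.norm_of_nonneg hb]
      have hle : ‖(b : ℂ) * y‖ ≤ ‖y‖ := by
        rw [hn]
        exact mul_le_of_le_one_left (norm_nonneg _) h1.le
      refine ⟨lt_of_le_of_lt hle hy.1, ?_⟩
      by_cases h2 : ‖(b : ℂ) * y‖ ^ m < Real.exp (-10)
      · exact Or.inl h2
      · push Not at h2
        refine Or.inr (FF_ray h d h0 h1 hy.1 h2 ?_)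
        rcases hy.2 with h3 | h3
        · exact absurd (h2.trans (pow_le_pow_left₀ (norm_nonneg _) hle m)) (not_le.2 h3)
        · exact h3.le

theorem regular_DD (h : FixData m a) (d : FFData m a) :
    interior (closure (DD m a)) = DD m a := by
  refine Subset.antisymm (fun x hx => ?_) ((isOpen_DD d).subset_interior_iff.2 subset_closure)
  have hxc : x ∈ closure (DD m a) := interior_subset hx
  have hx1 : ‖x‖ < 1 := by
    have h1 : x ∈ interior (Metric.closedBall (0 : ℂ) 1) := interior_mono closure_DD_subset hx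
    rwa [interior_closedBall _ one_ne_zero, Metric.mem_ball, dist_zero_right] at h1
  by_contra hxD
  have h2 : ¬ (‖x‖ ^ m < Real.exp (-10) ∨ FF m a x < 0) := fun h3 => hxD ⟨hx1, h3⟩
  push Not at h2
  have h3 : Real.exp (-10) < ‖x‖ ^ m := by
    refine lt_of_le_of_ne h2.1 fun h4 => ?_
    exact absurd (FF_inner h d h4.symm) (not_lt.2 h2.2)
  -- nearby points on the ray
  have hcont : Tendsto (fun e : ℝ => ((1 + e : ℝ) : ℂ) * x) (𝓝[>] 0) (𝓝 x) := by
    have : ContinuousAt (fun e : ℝ => ((1 + e : ℝ) : ℂ) * x) 0 := by fun_prop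
    have h5 := this.tendsto
    simp only [add_zero, Complex.ofReal_one, one_mul] at h5
    exact h5.mono_left nhdsWithin_le_nhds
  have e1 : ∀ᶠ e in 𝓝[>] (0 : ℝ), ((1 + e : ℝ) : ℂ) * x ∈ interior (closure (DD m a)) :=
    hcont.eventually (isOpen_interior.mem_nhds hx)
  have e2 : ∀ᶠ e in 𝓝[>] (0 : ℝ), ‖((1 + e : ℝ) : ℂ) * x‖ < 1 :=
    hcont.eventually ((isOpen_lt continuous_norm continuous_const).mem_nhds hx1)
  obtain ⟨e, ⟨he1, he2⟩, he0⟩ := ((e1.and e2).and self_mem_nhdsWithin).exists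
  have he0' : (0 : ℝ) < e := he0
  set y := ((1 + e : ℝ) : ℂ) * x with hy
  have hxy : x = ((1 / (1 + e) : ℝ) : ℂ) * y := by
    rw [hy, ← mul_assoc, ← Complex.ofReal_mul, one_div, inv_mul_cancel₀ (by positivity)]
    simp
  have hny : ‖x‖ ≤ ‖y‖ := by
    rw [hy, norm_mul, Complex.norm_real, Real.norm_of_nonneg (by positivity)]
    nlinarith [norm_nonneg x]
  have hFy : FF m a y ≤ 0 := FF_nonpos_of_closure d (interior_subset he1)
    (lt_of_lt_of_le h3 (pow_le_pow_left₀ (norm_nonneg _) hny m))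
  have h6 : 1 / (1 + e) < 1 := by
    rw [div_lt_one (by positivity)]
    linarith
  have h7 := FF_ray (s := 1 / (1 + e)) h d (by positivity) h6 he2 (by rw [← hxy]; exact h3.le) hFy
  rw [← hxy] at h7
  exact absurd h7 (not_lt.2 h2.2)

theorem isVState_DD_of (h : FixData m a) (d : FFData m a) :
    IsVState (DD m a) (Om m a) ∧ interior (closure (DD m a)) = DD m a ∧
      0 ∈ DD m a ∧ StarConvex ℝ 0 (DD m a) := by
  refine ⟨⟨isOpen_DD d, Metric.isBounded_ball.subset DD_subset, ?_⟩, regular_DD h d,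
    zero_mem_DD h, starConvex_DD h d⟩
  have key : ∀ x ∈ frontier (DD m a), pot (DD m a) x - Om m a / 2 * ‖x‖ ^ 2 =
      pot (D0 m a) 1 - Om m a / 2 := by
    intro x hx
    have h1 := FF_frontier h d hx
    rw [pot_DD_of h d]
    unfold FF at h1
    linarith
  intro x hx y hy
  rw [key x hx, key y (connectedComponentIn_subset _ _ hy)]

end Pool.Agent.Helper99.VS
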